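import Pool.Agent.Helper20.RG.St2

/-!
# RG module INV: the windows are almost invariant in the direction of the chord
-/

set_option autoImplicit false

open MeasureTheory Set Filter Topology
open scoped ENNReal RealInnerProductSpace

namespace Pool.Agent.Helper40.RG

open Pool.Agent.Helper68.LM (Pl BB Bd Av HL ft fm DQ)
open Pool.Agent.Helper20.RG

private theorem pow_INV (u : ℕ) (hu : 2 ≤ u) : 320 * (16 * u * (3 * u + 1)) ≤ 2 ^ (13 * u) := by
  have h1 : u < 2 ^ u := Nat.lt_two_pow_self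
  have h2 : 2 ^ (13 * u) = 2 ^ (11 * u) * (2 ^ u * 2 ^ u) := by
    rw [← pow_add, ← pow_add]
    congr 1
    ring
  have h3 : 2 ^ 22 ≤ 2 ^ (11 * u) := Nat.pow_le_pow_right (by norm_num) (by omega)
  have h4 : u * u ≤ 2 ^ u * 2 ^ u := Nat.mul_le_mul h1.le h1.le
  have h5 : 320 * (16 * u * (3 * u + 1)) ≤ 2 ^ 22 * (u * u) := by nlinarith
  rw [h2]
  exact h5.trans (Nat.mul_le_mul h3 h4)

private theorem q_INV (u : ℕ) (η : ℝ) (hu : 2 ≤ u) (hη : (2 : ℝ) ^ (-(3 * (u : ℤ))) ≤ η) :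
    320 * Ms u * (2 : ℝ) ^ (-(16 * (u : ℤ))) ≤ η := by
  have h1 : ((320 * (16 * u * (3 * u + 1)) : ℕ) : ℝ) ≤ ((2 ^ (13 * u) : ℕ) : ℝ) := by
    exact_mod_cast pow_INV u hu
  have h2 : 320 * Ms u ≤ (2 : ℝ) ^ (13 * (u : ℤ)) := by
    have h3 : (2 : ℝ) ^ (13 * (u : ℤ)) = (2 : ℝ) ^ (13 * u) := by
      rw [← zpow_natCast]
      push_cast
      rfl
    rw [h3]
    unfold Ms
    push_cast at h1
    exact h1
  calc 320 * Ms u * (2 : ℝ) ^ (-(16 * (u : ℤ)))
      ≤ (2 : ℝ) ^ (13 * (u : ℤ)) * (2 : ℝ) ^ (-(16 * (u : ℤ))) :=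
        mul_le_mul_of_nonneg_right h2 (by positivity)
    _ = (2 : ℝ) ^ (-(3 * (u : ℤ))) := by
        rw [← zpow_add₀ (by norm_num : (2 : ℝ) ≠ 0)]
        congr 1
        ring
    _ ≤ η := hη

theorem hINV : StINV := by
  intro u Cf K A σ s g Zf η b i k j hF hu hη hb hi hj x hx lam hlam
  set w : ℕ := om u (b - 1) (16 * u - i) with hw
  have hMs : 1 ≤ Ms u := by
    unfold Ms
    have : (2 : ℝ) ≤ u := by exact_mod_cast hu
    nlinarith
  have hq := q_INV u η hu hη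
  set q : ℝ := (2 : ℝ) ^ (-(16 * (u : ℤ))) with hqd
  have hq0 : 0 < q := by positivity
  have hγ : 16 * u ≤ 2 ^ (b - 1) * (16 * u) := Nat.le_mul_of_pos_left _ (by positivity)
  -- the change at the length W
  have hch : ∀ W : ℕ, w ≤ W → |Zf W k j (x + lam • E (s j)) - Zf W k j x| ≤ 20 * q := by
    intro W hW
    refine (hF.inv W k j x lam hj).trans ?_
    rw [div_le_iff₀ (by positivity)]
    have h1 : (2 : ℝ) ^ (k + (w : ℤ) - ((2 ^ (b - 1) * (16 * u) : ℕ) : ℤ)) ≤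
        (2 : ℝ) ^ (-(16 * (u : ℤ)) + (k + (W : ℤ))) := by
      apply zpow_le_zpow_right₀ (by norm_num)
      have h2 : ((16 * u : ℕ) : ℤ) ≤ ((2 ^ (b - 1) * (16 * u) : ℕ) : ℤ) := by exact_mod_cast hγ
      have h3 : (w : ℤ) ≤ W := by exact_mod_cast hW
      push_cast at h2 ⊢
      linarith
    rw [zpow_add₀ (by norm_num : (2 : ℝ) ≠ 0) (-(16 * (u : ℤ)))] at h1
    have h4 : |lam| ≤ 10 * (q * (2 : ℝ) ^ (k + (W : ℤ))) := hlam.trans (by
      apply mul_le_mul_of_nonneg_left h1 (by norm_num))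
    linarith
  have hom : ∀ l : ℕ, w ≤ om u b l := by
    intro l
    obtain ⟨c, rfl⟩ : ∃ c, b = c + 1 := ⟨b - 1, by omega⟩
    rw [hw]
    unfold om
    have h1 : c + 1 - 1 = c := by omega
    rw [h1]
    have h2 : 64 * u * (16 * u - i) ≤ 64 * u * (16 * u) := Nat.mul_le_mul_left _ (Nat.sub_le _ _)
    have h3 : 1024 * u ^ 2 + 64 * u * (16 * u - i) ≤ 2 * (1024 * u ^ 2 + 64 * u * l) := by nlinarith
    calc 2 ^ c * (1024 * u ^ 2 + 64 * u * (16 * u - i)) ≤
        2 ^ c * (2 * (1024 * u ^ 2 + 64 * u * l)) := Nat.mul_le_mul_left _ h3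
      _ = 2 ^ (c + 1) * (1024 * u ^ 2 + 64 * u * l) := by ring
  obtain ⟨hx1, hx2⟩ := hx
  refine ⟨?_, ?_⟩
  · have h1 := hch w le_rfl
    have h2 := abs_sub_abs_le_abs_sub (Zf w k j x) (Zf w k j (x + lam • E (s j)))
    rw [abs_sub_comm] at h2
    have h3 : 160 * q ≤ η := by nlinarith
    have h4 : 3 / 8 * η < |Zf w k j x| := hx1
    show 1 / 4 * η < |Zf w k j (x + lam • E (s j))|
    linarith
  · intro hb3
    obtain ⟨l, hl, hl2⟩ := hx2 hb3
    refine ⟨l, hl, ?_⟩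
    have h1 := hch _ (hom l)
    have h2 := hch _ (hom (l + 1))
    have h3 : 40 * q ≤ 1 / 8 * η / Ms u := by
      rw [le_div_iff₀ (by linarith)]
      linarith
    have h4 : 3 / 8 * η / Ms u = 1 / 4 * η / Ms u + 1 / 8 * η / Ms u := by ring
    have e1 : Zf (om u b l) k j x - Zf (om u b (l + 1)) k j x =
        (Zf (om u b l) k j (x + lam • E (s j)) - Zf (om u b (l + 1)) k j (x + lam • E (s j))) -
        (Zf (om u b l) k j (x + lam • E (s j)) - Zf (om u b l) k j x) +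
        (Zf (om u b (l + 1)) k j (x + lam • E (s j)) - Zf (om u b (l + 1)) k j x) := by ring
    rw [e1] at hl2
    have h5 := abs_add_le
      ((Zf (om u b l) k j (x + lam • E (s j)) - Zf (om u b (l + 1)) k j (x + lam • E (s j))) -
        (Zf (om u b l) k j (x + lam • E (s j)) - Zf (om u b l) k j x))
      (Zf (om u b (l + 1)) k j (x + lam • E (s j)) - Zf (om u b (l + 1)) k j x)
    have h6 := abs_sub
      (Zf (om u b l) k j (x + lam • E (s j)) - Zf (om u b (l + 1)) k j (x + lam • E (s j)))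
      (Zf (om u b l) k j (x + lam • E (s j)) - Zf (om u b l) k j x)
    linarith

end Pool.Agent.Helper40.RG
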