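import Pool.Agent.Helper2.RG.Base

/-!
# Project RG, module PRIN
-/

open scoped Pointwise NumberField
open NumberField Pool.RG

namespace Pool.Agent.Helper40.RG

theorem tPrin (hE : StExt) : StPrin := by
  intro K L _ _ _ _ _ _ l hl hfin hcop a ha hass hdiv
  obtain ⟨J, hJ⟩ := hE K L l hl hfin a ha hass hdiv
  have hfr : Module.finrank (𝓞 K) (𝓞 L) = l := by
    rw [← IsFractionRing.finrank_eq (𝓞 K) K (𝓞 L) L]
    exact hfin
  have hpow : J ^ l = Ideal.span {Algebra.intNorm (𝓞 K) (𝓞 L) a} := by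
    rw [← hfr, ← Ideal.relNorm_algebraMap (𝓞 L) J, hJ, Ideal.relNorm_singleton]
  have hprin : (J ^ l).IsPrincipal := by
    rw [hpow]
    exact ⟨_, rfl⟩
  have hcop' : l.Coprime (Fintype.card (ClassGroup (𝓞 K))) := Nat.Coprime.symm hcop
  obtain ⟨b, hb⟩ := (Ideal.IsPrincipal.of_isPrincipal_pow_of_coprime hcop' hprin).principal
  have hb' : J = Ideal.span {b} := hb
  rw [hb', Ideal.map_span, Set.image_singleton, Ideal.span_singleton_eq_span_singleton] at hJ
  obtain ⟨η, hη⟩ := hJ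
  exact ⟨b, η, hη.symm⟩

end Pool.Agent.Helper40.RG
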