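import Pool.Agent.Helper20.RG.St1
import Pool.Agent.Helper4.LM.M_BBC
import Pool.Agent.Helper29.LM.M_PH
import Pool.Agent.Helper80.LM.M_FA

/-!
# RG module YB: the chord operator is a composition of two averages and a translation
-/

set_option autoImplicit false

open MeasureTheory Set Filter Topology
open scoped ENNReal RealInnerProductSpace FourierTransform

namespace Pool.Agent.Helper40.RG

open Pool.Agent.Helper68.LM (Pl BB Bd Av HL ft fm DQ StBBC StFA)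
open Pool.Agent.Helper20.RG

theorem aBBC : StBBC := Pool.Agent.Helper4.LM.hBBC Pool.Agent.Helper29.LM.hPH

theorem aFA : StFA := Pool.Agent.Helper80.LM.hFA

theorem BB_const_mul (a : ℝ) (g : Pl → ℝ) (hg : BB g) : BB (fun y => a * g y) := by
  obtain ⟨hm, K, hK, hs⟩ := hg
  refine ⟨hm.const_mul a, max K (|a| * K), ?_, ?_⟩
  · intro x
    rw [abs_mul]
    exact le_trans (mul_le_mul_of_nonneg_left (hK x) (abs_nonneg a)) (le_max_right _ _)
  · intro x hx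
    simp only [hs x (lt_of_le_of_lt (le_max_left _ _) hx), mul_zero]

theorem BB_shift (w : Pl) (g : Pl → ℝ) (hg : BB g) : BB (fun x => g (x - w)) := by
  obtain ⟨hm, K, hK, hs⟩ := hg
  refine ⟨hm.comp (measurable_id.sub_const w), K + ‖w‖, ?_, ?_⟩
  · intro x
    exact le_trans (hK _) (by linarith [norm_nonneg w])
  · intro x hx
    refine hs _ ?_
    have h1 := norm_sub_norm_le x w
    linarith

theorem ft_shift (w : Pl) (g : Pl → ℝ) (ξ : Pl) :
    ft (fun x => g (x - w)) ξ =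
      Complex.exp (((-2 * Real.pi * ⟪w, ξ⟫ : ℝ) : ℂ) * Complex.I) * ft g ξ := by
  unfold ft
  rw [Real.fourier_eq', Real.fourier_eq']
  have h1 : ∫ v : Pl, Complex.exp (((-2 * Real.pi * ⟪v, ξ⟫ : ℝ) : ℂ) * Complex.I) •
      ((g (v - w) : ℝ) : ℂ) =
      ∫ v : Pl, Complex.exp (((-2 * Real.pi * ⟪v + w, ξ⟫ : ℝ) : ℂ) * Complex.I) •
      ((g v : ℝ) : ℂ) := by
    rw [← integral_add_right_eq_self (fun v : Pl => Complex.exp
      (((-2 * Real.pi * ⟪v, ξ⟫ : ℝ) : ℂ) * Complex.I) • ((g (v - w) : ℝ) : ℂ)) w]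
    refine integral_congr_ae (Filter.Eventually.of_forall fun v => ?_)
    simp only [add_sub_cancel_right]
  rw [h1, ← integral_const_mul]
  refine integral_congr_ae (Filter.Eventually.of_forall fun v => ?_)
  simp only [smul_eq_mul]
  rw [← mul_assoc, ← Complex.exp_add]
  congr 2
  rw [inner_add_left]
  push_cast
  ring

theorem Bd_finite {R L : ℝ} {ν : Measure Pl} (h : Bd R L ν) : IsFiniteMeasure ν :=
  ⟨lt_of_le_of_lt h.2 ENNReal.ofReal_lt_top⟩

theorem integrable_av {R L : ℝ} {ν : Measure Pl} (h : Bd R L ν) (t : ℝ) (g : Pl → ℝ) (hg : BB g)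
    (x : Pl) : Integrable (fun y => g (x - t • y)) ν := by
  have := Bd_finite h
  obtain ⟨hm, K, hK, -⟩ := hg
  refine Integrable.of_bound (C := K) ?_ (Filter.Eventually.of_forall fun y => ?_)
  · exact (hm.comp (measurable_const.sub (measurable_id.const_smul t))).aestronglyMeasurable
  · rw [Real.norm_eq_abs]
    exact hK _

theorem av_le {R L : ℝ} {ν : Measure Pl} (h : Bd R L ν) (h1 : ν univ = 1) (t : ℝ) (g : Pl → ℝ)
    (hg : BB g) (M : ℝ) (hM : ∀ x, g x ≤ M) (x : Pl) : Av ν t g x ≤ M := by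
  have := Bd_finite h
  unfold Av
  have h2 : ∫ y, g (x - t • y) ∂ν ≤ ∫ _y : Pl, M ∂ν :=
    integral_mono (integrable_av h t g hg x) (integrable_const M) (fun y => hM _)
  rw [integral_const] at h2
  simpa [Measure.real, h1] using h2

theorem av_nonneg (ν : Measure Pl) (t : ℝ) (g : Pl → ℝ) (hg : ∀ x, 0 ≤ g x) (x : Pl) :
    0 ≤ Av ν t g x := integral_nonneg fun _ => hg _

theorem av_lin {R L : ℝ} {ν : Measure Pl} (h : Bd R L ν) (t : ℝ) (g f : Pl → ℝ)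
    (hg : BB g) (hf : BB f) (a : ℝ) (x : Pl) :
    Av ν t (fun y => a * g y + f y) x = a * Av ν t g x + Av ν t f x := by
  unfold Av
  rw [integral_add ((integrable_av h t g hg x).const_mul a) (integrable_av h t f hf x),
    integral_const_mul]

theorem hYB (_hPT : StPT) (hMEA : StMEA) : StYB := by
  intro s c m ℓ k g hs hℓ hg
  obtain ⟨⟨hb, hb1, hbf⟩, hsg, hsf⟩ := hMEA
  obtain ⟨hS, hS1⟩ := hsg s hs
  have hBB := aBBC.2.2.1
  have hρ : (0 : ℝ) < 2 * (2 : ℝ) ^ (k - (m : ℤ)) := by positivity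
  have hτ : (0 : ℝ) < (2 : ℝ) ^ k * ℓ := by positivity
  have hg1 : ∀ f : Pl → ℝ, BB f → BB (Av bx (2 * (2 : ℝ) ^ (k - (m : ℤ))) f) := fun f hf =>
    hBB bx 1 1 _ f hb hρ.le hf
  have hg2 : ∀ f : Pl → ℝ, BB f → BB (Av (sg s) ((2 : ℝ) ^ k * ℓ) f) := fun f hf =>
    hBB (sg s) 1 1 _ f hS hτ.le hf
  refine ⟨BB_shift _ _ (hg2 _ (hg1 g hg)), ?_, ?_, ?_, ?_⟩
  · intro ξ
    have e1 : ft (Y s c m ℓ k g) ξ = Complex.exp (((-2 * Real.pi * ⟪(2 : ℝ) ^ k • c, ξ⟫ : ℝ) : ℂ) *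
        Complex.I) * ft (Av (sg s) ((2 : ℝ) ^ k * ℓ) (Av bx (2 * (2 : ℝ) ^ (k - (m : ℤ))) g)) ξ :=
      ft_shift ((2 : ℝ) ^ k • c) _ ξ
    rw [e1, aFA (sg s) 1 1 _ _ hS hτ (hg1 g hg) ξ, aFA bx 1 1 _ _ hb hρ hg ξ, hbf, hsf]
    unfold Yh
    have e2 : ⟪(2 : ℝ) ^ k • c, ξ⟫ = ⟪c, (2 : ℝ) ^ k • ξ⟫ := by
      rw [real_inner_smul_left, real_inner_smul_right]
    have e3 : Real.pi * ⟪E s, ((2 : ℝ) ^ k * ℓ) • ξ⟫ = Real.pi * ℓ * ⟪E s, (2 : ℝ) ^ k • ξ⟫ := by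
      rw [real_inner_smul_right, real_inner_smul_right]
      ring
    have e4 : ∀ i : Fin 2, Real.pi * ((2 * (2 : ℝ) ^ (k - (m : ℤ))) • ξ) i =
        2 * Real.pi * (2 : ℝ) ^ (-(m : ℤ)) * ((2 : ℝ) ^ k • ξ) i := by
      intro i
      simp only [PiLp.smul_apply, smul_eq_mul]
      rw [sub_eq_add_neg, zpow_add₀ (by norm_num : (2 : ℝ) ≠ 0)]
      ring
    rw [e2, e3, e4 0, e4 1]
    push_cast
    ring
  · intro hpos x
    exact av_nonneg _ _ _ (fun y => av_nonneg _ _ _ hpos y) _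
  · intro M hM x
    exact av_le hS hS1 _ _ (hg1 g hg) M (fun y => av_le hb hb1 _ _ hg M hM y) _
  · intro a f hf x
    have e5 : Av bx (2 * (2 : ℝ) ^ (k - (m : ℤ))) (fun y => a * g y + f y) =
        fun y => a * Av bx (2 * (2 : ℝ) ^ (k - (m : ℤ))) g y +
          Av bx (2 * (2 : ℝ) ^ (k - (m : ℤ))) f y :=
      funext fun y => av_lin hb _ g f hg hf a y
    unfold Y
    rw [e5, av_lin hS _ _ _ (hg1 g hg) (hg1 f hf) a]

end Pool.Agent.Helper40.RG
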